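import Mathlib

set_option autoImplicit false

namespace Pool.Agent.KS6_87.Fib

open Cardinal

theorem exists_ringEquiv {R K L : Type} [CommRing R] [IsDomain R] [Field K] [Field L] [Algebra R K]
    [Algebra R L] [IsAlgClosed K] [IsAlgClosed L]
    (hRK : Function.Injective (algebraMap R K)) (hRL : Function.Injective (algebraMap R L))
    (hR : #R ≤ ℵ₀) (hK : ℵ₀ < #K) (hKL : #K = #L) :
    ∃ e : K ≃+* L, ∀ r, e (algebraMap R K r) = algebraMap R L r := by
  have : FaithfulSMul R K := (faithfulSMul_iff_algebraMap_injective R K).2 hRK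
  have : FaithfulSMul R L := (faithfulSMul_iff_algebraMap_injective R L).2 hRL
  obtain ⟨s, hs⟩ := exists_isTranscendenceBasis R K
  obtain ⟨t, ht⟩ := exists_isTranscendenceBasis R L
  have h1 := IsAlgClosed.cardinal_eq_cardinal_transcendence_basis_of_aleph0_lt' _ hs hR hK
  have h2 := IsAlgClosed.cardinal_eq_cardinal_transcendence_basis_of_aleph0_lt' _ ht hR
    (by rw [← hKL]; exact hK)
  have h3 : #s = #t := by rw [← h1, ← h2, hKL]
  obtain ⟨e⟩ := Cardinal.eq.1 h3
  let _ := IsAlgClosed.isAlgClosure_of_transcendence_basis _ hs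
  let _ := IsAlgClosed.isAlgClosure_of_transcendence_basis _ ht
  let e1 : Algebra.adjoin R (Set.range ((↑) : s → K)) ≃ₐ[R]
      Algebra.adjoin R (Set.range ((↑) : t → L)) :=
    (hs.1.aevalEquiv.symm.trans (MvPolynomial.renameEquiv R e)).trans ht.1.aevalEquiv
  refine ⟨IsAlgClosure.equivOfEquiv K L e1.toRingEquiv, ?_⟩
  intro r
  rw [IsScalarTower.algebraMap_apply R (Algebra.adjoin R (Set.range ((↑) : s → K))) K,
    IsAlgClosure.equivOfEquiv_algebraMap,
    IsScalarTower.algebraMap_apply R (Algebra.adjoin R (Set.range ((↑) : t → L))) L]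
  congr 1
  exact e1.commutes r

/-- a field automorphism of the complex numbers between two algebraically independent families -/
theorem exists_auto {ι : Type} [Countable ι] (p q : ι → ℂ) (hp : AlgebraicIndependent ℚ p)
    (hq : AlgebraicIndependent ℚ q) : ∃ e : ℂ ≃+* ℂ, ∀ i, e (p i) = q i := by
  have hc : #(MvPolynomial ι ℚ) ≤ ℵ₀ := by
    refine MvPolynomial.cardinalMk_le_max.trans ?_
    exact max_le (max_le Cardinal.mk_le_aleph0 Cardinal.mk_le_aleph0) le_rfl
  obtain ⟨e, he⟩ := @exists_ringEquiv (MvPolynomial ι ℚ) ℂ ℂ _ _ _ _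
    (MvPolynomial.aeval p).toRingHom.toAlgebra (MvPolynomial.aeval q).toRingHom.toAlgebra _ _
    hp hq hc (by rw [Cardinal.mk_complex]; exact Cardinal.aleph0_lt_continuum) rfl
  refine ⟨e, fun i => ?_⟩
  have h1 := he (MvPolynomial.X i)
  have h2 : (MvPolynomial.aeval p) (MvPolynomial.X i : MvPolynomial ι ℚ) = p i :=
    MvPolynomial.aeval_X _ _
  have h3 : (MvPolynomial.aeval q) (MvPolynomial.X i : MvPolynomial ι ℚ) = q i :=
    MvPolynomial.aeval_X _ _
  rw [← h2, ← h3]
  exact h1

end Pool.Agent.KS6_87.Fib
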