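import Pool.Agent.KS6_87.Fib.Rigid

set_option autoImplicit false

namespace Pool.Agent.KS6_87.Fib

open Filter Topology MvPolynomial

variable {V : Type}

/-- the squared distance polynomial -/
noncomputable def dP (u v : V) : MvPolynomial (V × Fin 2) ℂ :=
  ∑ k : Fin 2, (X (u, k) - X (v, k)) ^ 2

theorem eval_dP (s : V × Fin 2 → ℂ) (u v : V) : eval s (dP u v) = sqd s u v := by
  simp [dP, sqd]

theorem dP_comm (u v : V) : (dP u v : MvPolynomial (V × Fin 2) ℂ) = dP v u := by
  unfold dP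
  exact Finset.sum_congr rfl fun k _ => by ring

/-- the squared distance polynomial of an unordered pair -/
noncomputable def eP (e : Sym2 V) : MvPolynomial (V × Fin 2) ℂ :=
  Sym2.lift ⟨dP, dP_comm⟩ e

/-- the system of polynomials: edge lengths and three pins -/
noncomputable def sysP (G : SimpleGraph V) (u v : V) :
    G.edgeSet ⊕ Fin 3 → MvPolynomial (V × Fin 2) ℂ
  | Sum.inl e => eP e.1
  | Sum.inr 0 => X (u, 0)
  | Sum.inr 1 => X (u, 1)
  | Sum.inr 2 => X (v, 0) + C Complex.I * X (v, 1)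

theorem near_of_class [Fintype V] (G : SimpleGraph V)
    (hcard : G.edgeSet.ncard + 3 = 2 * Fintype.card V) (q : V × Fin 2 → ℂ)
    (hfin : (DV G q).Finite) (hne : (0 : V → V → ℂ) ∉ DV G q)
    (r : V × Fin 2 → ℂ) (hr : ∀ u v, G.Adj u v → sqd r u v = sqd q u v)
    (W : Set (V × Fin 2 → ℂ)) (hW : W ∈ 𝓝 r) :
    ∀ᶠ q' in 𝓝 q, ∃ r' ∈ W, ∀ u v, G.Adj u v → sqd r' u v = sqd q' u v := by
  classical
  have hmem : ∀ s, (∀ u v, G.Adj u v → sqd s u v = sqd q u v) → sqd s ∈ DV G q :=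
    fun s hs => ⟨s, hs, rfl⟩
  have hnz : ∀ δ ∈ DV G q, ∃ w₁ w₂, δ w₁ w₂ ≠ 0 := by
    intro δ hδ
    by_contra hcon
    push Not at hcon
    apply hne
    have : δ = 0 := by funext a b; exact hcon a b
    rwa [this] at hδ
  obtain ⟨u, v, huv⟩ := hnz _ (hmem r hr)
  have hα : ia r v - ia r u ≠ 0 := by
    intro h
    apply huv
    rw [sqd_eq]
    linear_combination (-(ib r u - ib r v)) * h
  let _ : Fintype G.edgeSet := Fintype.ofFinite _
  have hc : Fintype.card (G.edgeSet ⊕ Fin 3) = Fintype.card (V × Fin 2) := by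
    rw [Fintype.card_sum, Fintype.card_prod, Fintype.card_fin, Fintype.card_fin,
      ← Set.toFinset_card, ← Set.ncard_eq_toFinset_card', hcard, mul_comm]
  have hfib : {s : V × Fin 2 → ℂ | ∀ j, eval s (sysP G u v j) = eval r (sysP G u v j)}.Finite := by
    have h1 : (⋃ δ ∈ DV G q, {s : V × Fin 2 → ℂ | sqd s = δ ∧ ia s u = ia r u ∧ ib s u = ib r u ∧
        ia s v = ia r u + (ia r v - ia r u)}).Finite := by
      refine hfin.biUnion ?_
      intro δ hδ
      obtain ⟨w₁, w₂, hw⟩ := hnz δ hδ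
      exact finite_frame δ w₁ w₂ hw u v _ _ _ hα
    refine h1.subset ?_
    intro s hs
    have hs' : ∀ j, eval s (sysP G u v j) = eval r (sysP G u v j) := hs
    have e0 : s (u, 0) = r (u, 0) := by simpa [sysP] using hs' (Sum.inr 0)
    have e1 : s (u, 1) = r (u, 1) := by simpa [sysP] using hs' (Sum.inr 1)
    have e2 : s (v, 0) + Complex.I * s (v, 1) = r (v, 0) + Complex.I * r (v, 1) := by
      simpa [sysP] using hs' (Sum.inr 2)
    have e3 : ∀ a b, G.Adj a b → sqd s a b = sqd q a b := by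
      intro a b hab
      have h2 := hs' (Sum.inl ⟨s(a, b), hab⟩)
      have h3 : sysP G u v (Sum.inl ⟨s(a, b), hab⟩) = dP a b := rfl
      rw [h3, eval_dP, eval_dP] at h2
      rw [h2, hr a b hab]
    simp only [Set.mem_iUnion]
    refine ⟨sqd s, hmem s e3, rfl, ?_, ?_, ?_⟩
    · simp only [ia, e0, e1]
    · simp only [ib, e0, e1]
    · simp only [ia] at *
      linear_combination e2
  have hopen := open_at (sysP G u v) hc r hfib W hW
  let Y : (V × Fin 2 → ℂ) → (G.edgeSet ⊕ Fin 3 → ℂ) := fun q' j =>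
    Sum.elim (fun e : G.edgeSet => eval q' (eP e.1)) (fun i => eval r (sysP G u v (Sum.inr i))) j
  have hY : Continuous Y := by
    rw [continuous_pi_iff]
    rintro (e | i)
    · exact MvPolynomial.continuous_eval _
    · exact continuous_const
  have hYq : Y q = fun j => eval r (sysP G u v j) := by
    funext j
    rcases j with e | i
    · obtain ⟨e, he⟩ := e
      induction e using Sym2.ind with
      | _ a b =>
        show eval q (dP a b) = eval r (dP a b)
        rw [eval_dP, eval_dP, hr a b he]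
    · rfl
  have h2 : ∀ᶠ q' in 𝓝 q, Y q' ∈ {y | ∃ r' ∈ W, ∀ j, eval r' (sysP G u v j) = y j} := by
    apply hY.continuousAt
    rw [hYq]
    exact hopen
  filter_upwards [h2] with q' hq'
  obtain ⟨r', hr'W, hr'⟩ := hq'
  refine ⟨r', hr'W, ?_⟩
  intro a b hab
  have h3 : eval r' (dP a b) = eval q' (dP a b) := hr' (Sum.inl ⟨s(a, b), hab⟩)
  rwa [eval_dP, eval_dP] at h3

theorem continuous_sqd : Continuous (sqd : (V × Fin 2 → ℂ) → V → V → ℂ) := by
  unfold sqd
  fun_prop

theorem exists_generic_ge [Fintype V] (G : SimpleGraph V)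
    (hcard : G.edgeSet.ncard + 3 = 2 * Fintype.card V) (q : V × Fin 2 → ℂ)
    (hfin : (DV G q).Finite) (hne : (0 : V → V → ℂ) ∉ DV G q) :
    ∃ p : V × Fin 2 → ℂ, AlgebraicIndependent ℚ p ∧ (DV G q).encard ≤ (DV G p).encard := by
  obtain ⟨U, hU1, hU2⟩ := hfin.t2_separation
  have hex : ∀ δ : V → V → ℂ, ∃ r : V × Fin 2 → ℂ, δ ∈ DV G q →
      (∀ u v, G.Adj u v → sqd r u v = sqd q u v) ∧ sqd r = δ := by
    intro δ
    by_cases h : δ ∈ DV G q
    · obtain ⟨r, h1, h2⟩ := h
      exact ⟨r, fun _ => ⟨h1, h2⟩⟩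
    · exact ⟨0, fun h' => absurd h' h⟩
  choose r hr using hex
  have hev : ∀ᶠ q' in 𝓝 q, ∀ δ ∈ DV G q, ∃ r' : V × Fin 2 → ℂ, sqd r' ∈ U δ ∧
      ∀ u v, G.Adj u v → sqd r' u v = sqd q' u v := by
    rw [Filter.eventually_all_finite hfin]
    intro δ hδ
    have hW : sqd ⁻¹' (U δ) ∈ 𝓝 (r δ) := by
      apply continuous_sqd.continuousAt
      rw [(hr δ hδ).2]
      exact (hU1 δ).2.mem_nhds (hU1 δ).1
    exact near_of_class G hcard q hfin hne (r δ) (hr δ hδ).1 _ hW
  obtain ⟨p, hp1, hp2⟩ := exists_generic q _ hev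
  refine ⟨p, hp2, ?_⟩
  have hp1' : ∀ δ : V → V → ℂ, ∃ r' : V × Fin 2 → ℂ, δ ∈ DV G q → sqd r' ∈ U δ ∧
      ∀ u v, G.Adj u v → sqd r' u v = sqd p u v := by
    intro δ
    by_cases h : δ ∈ DV G q
    · obtain ⟨r', h1⟩ := hp1 δ h
      exact ⟨r', fun _ => h1⟩
    · exact ⟨0, fun h' => absurd h' h⟩
  choose r' hr' using hp1'
  refine Set.encard_le_encard_of_injOn (f := fun δ => sqd (r' δ)) ?_ ?_
  · intro δ hδ
    exact ⟨r' δ, (hr' δ hδ).2, rfl⟩
  · intro δ hδ δ' hδ' h
    by_contra hne'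
    have h1 := hU2 hδ hδ' hne'
    have h2 : sqd (r' δ) ∈ U δ := (hr' δ hδ).1
    have h3 : sqd (r' δ') ∈ U δ' := (hr' δ' hδ').1
    simp only at h
    rw [← h] at h3
    exact Set.disjoint_left.1 h1 h2 h3

theorem generic_le [Fintype V] (G : SimpleGraph V) (p p' : V × Fin 2 → ℂ)
    (hp : AlgebraicIndependent ℚ p) (hp' : AlgebraicIndependent ℚ p') :
    (DV G p').encard ≤ (DV G p).encard := by
  obtain ⟨e, he⟩ := exists_auto p' p hp' hp
  have hs : ∀ (s : V × Fin 2 → ℂ) (u v : V), sqd (fun x => e (s x)) u v = e (sqd s u v) := by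
    intro s u v
    unfold sqd
    rw [map_sum]
    exact Finset.sum_congr rfl fun k _ => by rw [map_pow, map_sub]
  refine Set.encard_le_encard_of_injOn (f := fun δ u v => e (δ u v)) ?_ ?_
  · rintro _ ⟨s, hs1, rfl⟩
    refine ⟨fun x => e (s x), ?_, ?_⟩
    · intro u v huv
      rw [hs, hs1 u v huv, ← hs]
      congr 1
      funext x
      exact he x
    · funext u v
      exact hs s u v
  · intro δ _ δ' _ h
    funext u v
    exact e.injective (congrFun (congrFun h u) v)

theorem DV_le [Fintype V] (G : SimpleGraph V)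
    (hcard : G.edgeSet.ncard + 3 = 2 * Fintype.card V) (p q : V × Fin 2 → ℂ)
    (hp : AlgebraicIndependent ℚ p) (hfin : (DV G q).Finite) :
    (DV G q).encard ≤ (DV G p).encard := by
  classical
  by_cases hcomp : ∀ x y : V, x ≠ y → G.Adj x y
  · -- complete graph
    have h1 : (DV G q).encard ≤ 1 := by
      rw [Set.encard_le_one_iff]
      have key : ∀ δ ∈ DV G q, δ = sqd q := by
        rintro _ ⟨s, hs, rfl⟩
        funext u v
        by_cases h : u = v
        · rw [h, sqd_self, sqd_self]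
        · exact hs u v (hcomp u v h)
      intro a b ha hb
      rw [key a ha, key b hb]
    refine h1.trans ?_
    rw [Set.one_le_encard_iff_nonempty]
    exact ⟨sqd p, p, fun _ _ _ => rfl, rfl⟩
  · push Not at hcomp
    obtain ⟨x, y, hxy, hadj⟩ := hcomp
    have hne : (0 : V → V → ℂ) ∉ DV G q := fun h0 => infinite_of_zero G q x y hxy hadj h0 hfin
    obtain ⟨p', hp', hle⟩ := exists_generic_ge G hcard q hfin hne
    exact hle.trans (generic_le G p p' hp hp')

end Pool.Agent.KS6_87.Fib
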