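import Mathlib

set_option autoImplicit false

namespace Pool.Agent.KS6_87.Fib

open MvPolynomial Filter Topology

/-- a complex polynomial vanishing on a nonempty open set is zero -/
theorem eq_zero_of_open {ι : Type} [Fintype ι] (P : MvPolynomial ι ℂ) (x : ι → ℂ)
    (h : ∀ᶠ y in 𝓝 x, eval y P = 0) : P = 0 := by
  obtain ⟨ε, hε, hb⟩ := Metric.eventually_nhds_iff_ball.1 h
  refine MvPolynomial.funext_set (fun i => Metric.ball (x i) ε) ?_ ?_
  · intro i
    exact Set.Infinite.mono subset_rfl (infinite_of_mem_nhds (x i) (Metric.ball_mem_nhds _ hε))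
  · intro y hy
    rw [map_zero]
    apply hb
    rw [ball_pi x hε]
    exact hy

/-- algebraically independent points are dense -/
theorem exists_generic {ι : Type} [Fintype ι] (x : ι → ℂ) (W : Set (ι → ℂ)) (hW : W ∈ 𝓝 x) :
    ∃ p ∈ W, AlgebraicIndependent ℚ p := by
  have hcount : Countable (MvPolynomial ι ℚ) := by
    rw [← Cardinal.mk_le_aleph0_iff]
    refine MvPolynomial.cardinalMk_le_max.trans ?_
    exact max_le (max_le Cardinal.mk_le_aleph0 Cardinal.mk_le_aleph0) le_rfl
  let Z : {P : MvPolynomial ι ℚ // P ≠ 0} → Set (ι → ℂ) := fun P => {y | aeval y P.1 ≠ 0}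
  have hev : ∀ (P : MvPolynomial ι ℚ) (y : ι → ℂ), aeval y P =
      eval y (MvPolynomial.map (algebraMap ℚ ℂ) P) := by
    intro P y
    rw [eval_map]
    rfl
  have hopen : ∀ P, IsOpen (Z P) := by
    intro P
    have h1 : Continuous fun y : ι → ℂ => aeval y P.1 := by
      simp only [hev]
      exact MvPolynomial.continuous_eval _
    exact isOpen_ne.preimage h1
  have hdense : ∀ P, Dense (Z P) := by
    intro P
    have h0 : interior (Z P)ᶜ = ∅ → Dense (Z P) := by
      intro h
      have := interior_eq_empty_iff_dense_compl.1 h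
      rwa [compl_compl] at this
    apply h0
    rw [Set.eq_empty_iff_forall_notMem]
    intro y hy
    have h1 : ∀ᶠ z in 𝓝 y, eval z (MvPolynomial.map (algebraMap ℚ ℂ) P.1) = 0 := by
      filter_upwards [mem_interior_iff_mem_nhds.1 hy] with z hz
      rw [← hev]
      simpa [Z] using hz
    have h2 := eq_zero_of_open _ y h1
    apply P.2
    apply MvPolynomial.map_injective (algebraMap ℚ ℂ) (algebraMap ℚ ℂ).injective
    rw [h2, map_zero]
  have hD : Dense (⋂ P, Z P) := dense_iInter_of_isOpen hopen hdense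
  obtain ⟨p, hp1, hp2⟩ := hD.inter_nhds_nonempty hW
  refine ⟨p, hp2, ?_⟩
  rw [algebraicIndependent_iff]
  intro P hP
  by_contra hne
  exact (Set.mem_iInter.1 hp1 ⟨P, hne⟩) hP

end Pool.Agent.KS6_87.Fib
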