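import Mathlib

set_option autoImplicit false

namespace Pool.Agent.KS6_87.Fib

open Polynomial

/-- extension of a surjective ring homomorphism to an algebraically closed field along an injective
integral extension -/
theorem exists_ext {R S K : Type*} [CommRing R] [CommRing S] [Algebra R S]
    [Algebra.IsIntegral R S] (hinj : Function.Injective (algebraMap R S)) [Field K] [IsAlgClosed K]
    (φ : R →+* K) (hφ : Function.Surjective φ) :
    ∃ ψ : S →+* K, ψ.comp (algebraMap R S) = φ := by
  have hmax : (RingHom.ker φ).IsMaximal := RingHom.ker_isMaximal_of_surjective φ hφ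
  have hk : RingHom.ker (algebraMap R S) ≤ RingHom.ker φ := by
    rw [(RingHom.injective_iff_ker_eq_bot _).1 hinj]
    exact bot_le
  obtain ⟨Q, hQ, hQc⟩ := Ideal.exists_ideal_over_maximal_of_isIntegral (RingHom.ker φ) hk (S := S)
  let _ : Field (S ⧸ Q) := Ideal.Quotient.field Q
  let e : R ⧸ RingHom.ker φ ≃+* K := RingHom.quotientKerEquivOfSurjective hφ
  let f : R ⧸ RingHom.ker φ →+* S ⧸ Q := Ideal.quotientMap Q (algebraMap R S) hQc.ge
  have hf : f.IsIntegral := by
    intro x
    obtain ⟨x, rfl⟩ := Ideal.Quotient.mk_surjective x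
    obtain ⟨p, hp1, hp2⟩ := Algebra.IsIntegral.isIntegral (R := R) x
    refine ⟨p.map (Ideal.Quotient.mk _), hp1.map _, ?_⟩
    rw [eval₂_map]
    have h1 : f.comp (Ideal.Quotient.mk (RingHom.ker φ)) =
        (Ideal.Quotient.mk Q).comp (algebraMap R S) := by
      ext r; rfl
    rw [h1]
    have h2 := congrArg (Ideal.Quotient.mk Q) hp2
    rw [map_zero, hom_eval₂] at h2
    exact h2
  have hg : (f.comp e.symm.toRingHom).IsIntegral := by
    intro x
    obtain ⟨p, hp1, hp2⟩ := hf x
    refine ⟨p.map e.toRingHom, hp1.map _, ?_⟩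
    rw [eval₂_map]
    have h1 : (f.comp e.symm.toRingHom).comp e.toRingHom = f := by
      ext r
      simp
    rw [h1]
    exact hp2
  have hb := IsAlgClosed.ringHom_bijective_of_isIntegral (f.comp e.symm.toRingHom) hg
  let g : K ≃+* S ⧸ Q := RingEquiv.ofBijective _ hb
  refine ⟨g.symm.toRingHom.comp (Ideal.Quotient.mk Q), ?_⟩
  ext r
  show g.symm (Ideal.Quotient.mk Q (algebraMap R S r)) = φ r
  rw [RingEquiv.symm_apply_eq]
  show _ = f (e.symm (φ r))
  have : e.symm (φ r) = Ideal.Quotient.mk _ r := by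
    rw [RingEquiv.symm_apply_eq]
    rfl
  rw [this]
  rfl

/-- extension with a prescribed value on one integral element -/
theorem exists_ext_value {R S K : Type*} [CommRing R] [IsDomain R] [IsIntegrallyClosed R]
    [CommRing S] [IsDomain S] [Algebra R S] [Algebra.IsIntegral R S]
    (hinj : Function.Injective (algebraMap R S)) [Field K] [IsAlgClosed K]
    (φ : R →+* K) (hφ : Function.Surjective φ) (b : S) (t : K)
    (ht : (minpoly R b).eval₂ φ t = 0) :
    ∃ ψ : S →+* K, ψ.comp (algebraMap R S) = φ ∧ ψ b = t := by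
  have hfs : FaithfulSMul R S := (faithfulSMul_iff_algebraMap_injective R S).2 hinj
  have hb : IsIntegral R b := Algebra.IsIntegral.isIntegral b
  let e := minpoly.equivAdjoin hb
  let φ1 : AdjoinRoot (minpoly R b) →+* K := AdjoinRoot.lift φ t ht
  let φ2 : Algebra.adjoin R ({b} : Set S) →+* K := φ1.comp e.symm.toRingEquiv.toRingHom
  have hφ2 : ∀ r : R, φ2 (algebraMap R _ r) = φ r := by
    intro r
    show φ1 (e.symm (algebraMap R _ r)) = φ r
    rw [AlgEquiv.commutes]
    exact AdjoinRoot.lift_of _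
  have hs : Function.Surjective φ2 := by
    intro k
    obtain ⟨r, hr⟩ := hφ k
    exact ⟨_, (hφ2 r).trans hr⟩
  have : Algebra.IsIntegral (Algebra.adjoin R ({b} : Set S)) S :=
    Algebra.IsIntegral.tower_top (R := R)
  obtain ⟨ψ, hψ⟩ := exists_ext (R := Algebra.adjoin R ({b} : Set S)) (S := S)
    (by exact Subtype.val_injective) φ2 hs
  refine ⟨ψ, ?_, ?_⟩
  · ext r
    rw [RingHom.comp_apply, IsScalarTower.algebraMap_apply R (Algebra.adjoin R ({b} : Set S)) S,
      ← hφ2 r, ← hψ]
    rfl
  · have hbm : b ∈ Algebra.adjoin R ({b} : Set S) := Algebra.subset_adjoin rfl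
    have h1 : ψ b = φ2 ⟨b, hbm⟩ := by
      rw [← hψ]; rfl
    rw [h1]
    show φ1 (e.symm ⟨b, hbm⟩) = t
    have h2 : e.symm ⟨b, hbm⟩ = AdjoinRoot.root _ := by
      rw [AlgEquiv.symm_apply_eq]
      apply Subtype.ext
      show b = ((AdjoinRoot.Minpoly.toAdjoin R b (AdjoinRoot.root _) :
        Algebra.adjoin R ({b} : Set S)) : S)
      simp
    rw [h2]
    exact AdjoinRoot.lift_root _

end Pool.Agent.KS6_87.Fib
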