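import Pool.Agent.KS6_87.Fib.Ext

set_option autoImplicit false

namespace Pool.Agent.KS6_87.Fib

open Filter Topology

theorem pow_card_le_norm_prod (m : Multiset ℂ) (c : ℝ) (hc : 0 ≤ c) (h : ∀ t ∈ m, c ≤ ‖t‖) :
    c ^ Multiset.card m ≤ ‖m.prod‖ := by
  induction m using Multiset.induction_on with
  | empty => simp
  | cons a s ih =>
    rw [Multiset.card_cons, pow_succ, Multiset.prod_cons, norm_mul, mul_comm]
    exact mul_le_mul (h a (Multiset.mem_cons_self a s))
      (ih fun t ht => h t (Multiset.mem_cons_of_mem ht)) (pow_nonneg hc _) (norm_nonneg _)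

/-- a monic polynomial has a root of modulus controlled by the constant coefficient -/
theorem exists_small_root (Q : Polynomial ℂ) (hQ : Q.Monic) (hd : Q.natDegree ≠ 0) :
    ∃ t : ℂ, Q.eval t = 0 ∧ ‖t‖ ^ Q.natDegree ≤ ‖Q.coeff 0‖ := by
  have hs : Q.Splits := IsAlgClosed.splits Q
  have hcard : Multiset.card Q.roots = Q.natDegree := hs.natDegree_eq_card_roots.symm
  have hne : Q.roots.toFinset.Nonempty := by
    rw [Multiset.toFinset_nonempty]
    intro h0
    rw [h0] at hcard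
    exact hd (by simpa using hcard.symm)
  obtain ⟨t, ht, hmin⟩ := Q.roots.toFinset.exists_min_image (fun t => ‖t‖) hne
  refine ⟨t, ?_, ?_⟩
  · have := (Polynomial.mem_roots hQ.ne_zero).1 (Multiset.mem_toFinset.1 ht)
    exact this
  · rw [hs.coeff_zero_eq_prod_roots_of_monic hQ, norm_mul, norm_pow, norm_neg, norm_one, one_pow,
      one_mul, ← hcard]
    exact pow_card_le_norm_prod _ _ (norm_nonneg _)
      fun s hs => hmin s (Multiset.mem_toFinset.2 hs)

section

variable {A S Y : Type*} [CommRing A] [CommRing S] [Algebra A S] [TopologicalSpace Y]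

/-- values of homomorphisms over nearby points are bounded -/
theorem eventually_bound (φ : Y → A →+* ℂ) (hcont : ∀ a, Continuous fun y => φ y a) (y₀ : Y)
    (s : S) (hs : IsIntegral A s) :
    ∃ M : ℝ, ∀ᶠ y in 𝓝 y₀, ∀ ψ : S →+* ℂ, ψ.comp (algebraMap A S) = φ y → ‖ψ s‖ ≤ M := by
  obtain ⟨P, hP1, hP2⟩ := hs
  have h1 : ∀ i : ℕ, ∀ᶠ y in 𝓝 y₀, ‖φ y (P.coeff i)‖ < ‖φ y₀ (P.coeff i)‖ + 1 := by
    intro i
    exact (hcont (P.coeff i)).norm.continuousAt.eventually_lt continuousAt_const (by simp)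
  have h2 : ∀ᶠ y in 𝓝 y₀, ∀ i ∈ Finset.range P.natDegree,
      ‖φ y (P.coeff i)‖ < ‖φ y₀ (P.coeff i)‖ + 1 :=
    (Finset.eventually_all _).2 fun i _ => h1 i
  refine ⟨∑ i ∈ Finset.range P.natDegree, (‖φ y₀ (P.coeff i)‖ + 1) + 1, ?_⟩
  filter_upwards [h2] with y hy ψ hψ
  have hroot : (P.map (φ y)).IsRoot (ψ s) := by
    rw [Polynomial.IsRoot.def, Polynomial.eval_map, ← hψ, ← Polynomial.hom_eval₂, hP2, map_zero]
  have hmon : (P.map (φ y)).Monic := hP1.map _
  have h3 := Polynomial.IsRoot.norm_lt_cauchyBound hmon.ne_zero hroot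
  have h4 : ((P.map (φ y)).cauchyBound : ℝ) ≤
      ∑ i ∈ Finset.range P.natDegree, (‖φ y₀ (P.coeff i)‖ + 1) + 1 := by
    rw [Polynomial.cauchyBound, hmon.leadingCoeff, nnnorm_one, div_one, NNReal.coe_add,
      NNReal.coe_one, hP1.natDegree_map]
    gcongr
    have h5 : ((Finset.range P.natDegree).sup fun x => ‖(P.map (φ y)).coeff x‖₊) ≤
        ∑ i ∈ Finset.range P.natDegree, (‖φ y₀ (P.coeff i)‖₊ + 1) := by
      refine Finset.sup_le ?_
      intro i hi
      have h6 : ‖(P.map (φ y)).coeff i‖₊ ≤ ‖φ y₀ (P.coeff i)‖₊ + 1 := by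
        rw [Polynomial.coeff_map, ← NNReal.coe_le_coe]
        push_cast
        exact (hy i hi).le
      refine h6.trans ?_
      exact Finset.single_le_sum (f := fun i => ‖φ y₀ (P.coeff i)‖₊ + 1) (fun _ _ => by positivity) hi
    have h7 := NNReal.coe_le_coe.2 h5
    push_cast at h7
    convert h7 using 1
  exact (lt_of_lt_of_le (by exact_mod_cast h3) h4).le

/-- finitely many homomorphisms over one point -/
theorem finite_homs (φ : A →+* ℂ) (G : Set S) (hG : G.Finite) (hgen : Algebra.adjoin A G = ⊤)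
    (hint : ∀ s ∈ G, IsIntegral A s) :
    {ψ : S →+* ℂ | ψ.comp (algebraMap A S) = φ}.Finite := by
  have : Finite G := hG
  have hP : ∀ s : G, ∃ P : Polynomial A, P.Monic ∧ P.eval₂ (algebraMap A S) (s : S) = 0 :=
    fun s => hint s s.2
  choose P hP1 hP2 using hP
  let Tgt : Set (G → ℂ) := Set.pi Set.univ fun s => {t : ℂ | (P s |>.map φ).IsRoot t}
  have hT : Tgt.Finite := Set.Finite.pi fun s => Polynomial.finite_setOfPred_isRoot
    ((hP1 s).map φ).ne_zero
  refine Set.Finite.of_finite_image (f := fun ψ : S →+* ℂ => fun s : G => ψ s) (hT.subset ?_) ?_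
  · rintro _ ⟨ψ, hψ, rfl⟩
    intro s _
    have hψ' : ψ.comp (algebraMap A S) = φ := hψ
    show (P s |>.map φ).IsRoot (ψ s)
    rw [Polynomial.IsRoot.def, Polynomial.eval_map, ← hψ', ← Polynomial.hom_eval₂, hP2, map_zero]
  · intro ψ hψ χ hχ h
    have hψ' : ψ.comp (algebraMap A S) = φ := hψ
    have hχ' : χ.comp (algebraMap A S) = φ := hχ
    let _ : Algebra A ℂ := φ.toAlgebra
    let ψ1 : S →ₐ[A] ℂ := { ψ with commutes' := fun a => congrArg (fun f : A →+* ℂ => f a) hψ' }
    let χ1 : S →ₐ[A] ℂ := { χ with commutes' := fun a => congrArg (fun f : A →+* ℂ => f a) hχ' }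
    have h1 : ψ1 = χ1 := by
      apply AlgHom.ext_of_adjoin_eq_top hgen
      intro s hs
      exact congrFun h ⟨s, hs⟩
    ext s
    exact congrArg (fun f : S →ₐ[A] ℂ => f s) h1

/-- an element vanishing at one homomorphism and equal to one at the other ones over the same
point -/
theorem exists_separating (φ : A →+* ℂ) (hφ : Function.Surjective φ)
    (hfin : {ψ : S →+* ℂ | ψ.comp (algebraMap A S) = φ}.Finite)
    (ψ₀ : S →+* ℂ) (hψ₀ : ψ₀.comp (algebraMap A S) = φ) :
    ∃ b : S, ψ₀ b = 0 ∧ ∀ ψ : S →+* ℂ, ψ.comp (algebraMap A S) = φ → ψ ≠ ψ₀ → ψ b ≠ 0 := by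
  have h1 : ∀ ψ : S →+* ℂ, ∃ c : S, ψ.comp (algebraMap A S) = φ → ψ ≠ ψ₀ →
      ψ₀ c = 0 ∧ ψ c = 1 := by
    intro ψ
    by_cases h : ψ.comp (algebraMap A S) = φ ∧ ψ ≠ ψ₀
    · obtain ⟨h2, h3⟩ := h
      have h4 : ∃ c, ψ c ≠ ψ₀ c := by
        by_contra hcon
        push Not at hcon
        exact h3 (RingHom.ext hcon)
      obtain ⟨c, hc⟩ := h4
      obtain ⟨a, ha⟩ := hφ (ψ₀ c)
      obtain ⟨a', ha'⟩ := hφ (ψ c - ψ₀ c)⁻¹
      have e1 : ∀ a, ψ (algebraMap A S a) = φ a := fun a => congrArg (fun f : A →+* ℂ => f a) h2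
      have e2 : ∀ a, ψ₀ (algebraMap A S a) = φ a := fun a => congrArg (fun f : A →+* ℂ => f a) hψ₀
      refine ⟨(c - algebraMap A S a) * algebraMap A S a', fun _ _ => ⟨?_, ?_⟩⟩
      · rw [map_mul, map_sub, e2, e2, ha, sub_self, zero_mul]
      · rw [map_mul, map_sub, e1, e1, ha, ha']
        exact mul_inv_cancel₀ (sub_ne_zero.2 hc)
    · exact ⟨0, fun h2 h3 => absurd ⟨h2, h3⟩ h⟩
  choose c hc using h1
  classical
  let H := hfin.toFinset.erase ψ₀
  refine ⟨1 - ∏ ψ ∈ H, (1 - c ψ), ?_, ?_⟩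
  · rw [map_sub, map_one, map_prod, Finset.prod_congr rfl (g := fun _ => (1:ℂ))]
    · simp
    · intro ψ hψ
      have h2 := Finset.mem_erase.1 hψ
      have h3 : ψ.comp (algebraMap A S) = φ := by simpa using h2.2
      rw [map_sub, map_one, (hc ψ h3 h2.1).1, sub_zero]
  · intro ψ h3 h4
    rw [map_sub, map_one, map_prod, Finset.prod_eq_zero (i := ψ)]
    · simp
    · exact Finset.mem_erase.2 ⟨h4, by simpa using h3⟩
    · rw [map_sub, map_one, (hc ψ h3 h4).2, sub_self]

end

/-- continuity of the fibres of an integral extension of an integrally closed domain -/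
theorem exists_near {A S Y τ : Type*} [CommRing A] [IsDomain A] [IsIntegrallyClosed A]
    [CommRing S] [IsDomain S] [Algebra A S] [Algebra.IsIntegral A S] [TopologicalSpace Y]
    (hinj : Function.Injective (algebraMap A S))
    (G : Set S) (hG : G.Finite) (hgen : Algebra.adjoin A G = ⊤)
    (φ : Y → A →+* ℂ) (hφ : ∀ y, Function.Surjective (φ y))
    (hcont : ∀ a, Continuous fun y => φ y a) (y₀ : Y)
    (ψ₀ : S →+* ℂ) (hψ₀ : ψ₀.comp (algebraMap A S) = φ y₀)
    (t : τ → S) (N : Set (τ → ℂ)) (hN : N ∈ 𝓝 fun k => ψ₀ (t k)) :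
    ∀ᶠ y in 𝓝 y₀, ∃ ψ : S →+* ℂ, ψ.comp (algebraMap A S) = φ y ∧ (fun k => ψ (t k)) ∈ N := by
  have hfin := finite_homs (φ y₀) G hG hgen fun s _ => Algebra.IsIntegral.isIntegral (R := A) s
  obtain ⟨b, hb0, hb1⟩ := exists_separating (φ y₀) (hφ y₀) hfin ψ₀ hψ₀
  have hbint : IsIntegral A b := Algebra.IsIntegral.isIntegral b
  have hmon : (minpoly A b).Monic := minpoly.monic hbint
  have hdeg : (minpoly A b).natDegree ≠ 0 := (minpoly.natDegree_pos hbint).ne'
  have hex : ∀ y, ∃ ψ : S →+* ℂ, ψ.comp (algebraMap A S) = φ y ∧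
      ‖ψ b‖ ^ (minpoly A b).natDegree ≤ ‖φ y ((minpoly A b).coeff 0)‖ := by
    intro y
    obtain ⟨t, ht1, ht2⟩ := exists_small_root ((minpoly A b).map (φ y)) (hmon.map _)
      (by rw [hmon.natDegree_map]; exact hdeg)
    obtain ⟨ψ, h1, h2⟩ := exists_ext_value hinj (φ y) (hφ y) b t (by
      rw [← Polynomial.eval_map]; exact ht1)
    refine ⟨ψ, h1, ?_⟩
    rw [h2]
    rw [hmon.natDegree_map, Polynomial.coeff_map] at ht2
    exact ht2
  choose ψ hψ1 hψ2 using hex
  suffices H : ∀ᶠ y in 𝓝 y₀, (fun k => ψ y (t k)) ∈ N by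
    filter_upwards [H] with y hy
    exact ⟨ψ y, hψ1 y, hy⟩
  rw [Filter.Eventually, Filter.mem_iff_ultrafilter]
  intro U hU
  -- the limit homomorphism
  have hlim : ∀ s : S, ∃ l : ℂ, Tendsto (fun y => ψ y s) U (𝓝 l) := by
    intro s
    obtain ⟨M, hM⟩ := eventually_bound φ hcont y₀ s (Algebra.IsIntegral.isIntegral s)
    have h1 : ∀ᶠ y in (U : Filter Y), ψ y s ∈ Metric.closedBall (0:ℂ) M := by
      filter_upwards [hU hM] with y hy
      rw [mem_closedBall_zero_iff]
      exact hy (ψ y) (hψ1 y)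
    obtain ⟨l, -, hl⟩ := (isCompact_closedBall (0:ℂ) M).ultrafilter_le_nhds
      (U.map fun y => ψ y s) (by
        rw [le_principal_iff]
        exact h1)
    exact ⟨l, hl⟩
  choose L hL using hlim
  let Lhom : S →+* ℂ :=
    { toFun := L
      map_one' := by
        refine tendsto_nhds_unique (hL 1) ?_
        simp only [map_one]
        exact tendsto_const_nhds
      map_zero' := by
        refine tendsto_nhds_unique (hL 0) ?_
        simp only [map_zero]
        exact tendsto_const_nhds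
      map_mul' := by
        intro x y
        refine tendsto_nhds_unique (hL (x * y)) ?_
        simp only [map_mul]
        exact (hL x).mul (hL y)
      map_add' := by
        intro x y
        refine tendsto_nhds_unique (hL (x + y)) ?_
        simp only [map_add]
        exact (hL x).add (hL y) }
  have hLc : Lhom.comp (algebraMap A S) = φ y₀ := by
    ext a
    refine tendsto_nhds_unique (hL (algebraMap A S a)) ?_
    have h1 : (fun y => ψ y (algebraMap A S a)) = fun y => φ y a := by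
      funext y
      exact congrArg (fun f : A →+* ℂ => f a) (hψ1 y)
    rw [h1]
    exact ((hcont a).tendsto y₀).mono_left hU
  have hLb : Lhom b = 0 := by
    have h1 : Tendsto (fun y => ‖ψ y b‖ ^ (minpoly A b).natDegree) U
        (𝓝 (‖L b‖ ^ (minpoly A b).natDegree)) := ((hL b).norm).pow _
    have h2 : φ y₀ ((minpoly A b).coeff 0) = 0 := by
      have h3 : ψ₀ (Polynomial.aeval b (minpoly A b)) = 0 := by rw [minpoly.aeval, map_zero]
      rw [Polynomial.aeval_def, Polynomial.hom_eval₂, hψ₀, hb0] at h3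
      rw [← Polynomial.eval_map, ← Polynomial.coeff_zero_eq_eval_zero, Polynomial.coeff_map] at h3
      exact h3
    have h4 : Tendsto (fun y => ‖φ y ((minpoly A b).coeff 0)‖) U (𝓝 0) := by
      have h5 := ((hcont ((minpoly A b).coeff 0)).norm.tendsto y₀).mono_left hU
      simpa [h2] using h5
    have h6 : ‖L b‖ ^ (minpoly A b).natDegree ≤ 0 :=
      le_of_tendsto_of_tendsto' h1 h4 fun y => hψ2 y
    have h7 : ‖L b‖ ^ (minpoly A b).natDegree = 0 := le_antisymm h6 (by positivity)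
    exact norm_eq_zero.1 (pow_eq_zero_iff hdeg |>.1 h7)
  have hLψ : Lhom = ψ₀ := by
    by_contra hne
    exact hb1 Lhom hLc hne hLb
  have hfinal : Tendsto (fun y => fun k => ψ y (t k)) U (𝓝 fun k => ψ₀ (t k)) := by
    rw [tendsto_pi_nhds]
    intro k
    have h1 := hL (t k)
    have h2 : L (t k) = ψ₀ (t k) := congrArg (fun f : S →+* ℂ => f (t k)) hLψ
    rw [h2] at h1
    exact h1
  exact hfinal hN

end Pool.Agent.KS6_87.Fib
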