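import Mathlib

set_option autoImplicit false

namespace Pool.Agent.KS6_87.Fib

open MvPolynomial

variable {ι κ : Type} [Finite ι]

instance isMaximal_ker_eval {σ : Type} (r : σ → ℂ) : (RingHom.ker (eval r)).IsMaximal :=
  RingHom.ker_isMaximal_of_surjective _ fun c => ⟨C c, eval_C c⟩

/-- the maximal ideals of a complex polynomial ring -/
theorem exists_eq_ker_eval (M : Ideal (MvPolynomial ι ℂ)) (hM : M.IsMaximal) :
    ∃ r : ι → ℂ, M = RingHom.ker (eval r) := by
  obtain ⟨r, hr⟩ := isMaximal_iff_eq_vanishingIdeal_singleton.1 hM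
  refine ⟨r, ?_⟩
  rw [hr]
  ext p
  simp [RingHom.mem_ker, aeval_eq_eval]

omit [Finite ι] in
theorem eval_aeval (F : κ → MvPolynomial ι ℂ) (r : ι → ℂ) (p : MvPolynomial κ ℂ) :
    eval r (aeval F p) = eval (fun j => eval r (F j)) p := by
  have h : (eval r).comp (aeval F : MvPolynomial κ ℂ →ₐ[ℂ] _).toRingHom =
      eval (fun j => eval r (F j)) := by
    apply MvPolynomial.ringHom_ext
    · intro c; simp
    · intro j; simp
  exact congrArg (fun f : MvPolynomial κ ℂ →+* ℂ => f p) h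

theorem quasiFiniteAt [Algebra (MvPolynomial κ ℂ) (MvPolynomial ι ℂ)]
    (F : κ → MvPolynomial ι ℂ)
    (hA : ∀ p, algebraMap (MvPolynomial κ ℂ) (MvPolynomial ι ℂ) p = aeval F p)
    (r₀ : ι → ℂ) (hfin : {r : ι → ℂ | ∀ j, eval r (F j) = eval r₀ (F j)}.Finite) :
    Algebra.FiniteType (MvPolynomial κ ℂ) (MvPolynomial ι ℂ) ∧
    Algebra.QuasiFiniteAt (MvPolynomial κ ℂ) (RingHom.ker (eval r₀)) := by
  have hst : IsScalarTower ℂ (MvPolynomial κ ℂ) (MvPolynomial ι ℂ) :=
    IsScalarTower.of_algebraMap_eq fun c => by rw [hA]; simp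
  have hft : Algebra.FiniteType (MvPolynomial κ ℂ) (MvPolynomial ι ℂ) :=
    Algebra.FiniteType.of_restrictScalars_finiteType ℂ _ _
  refine ⟨hft, ?_⟩
  -- the point
  let q : PrimeSpectrum (MvPolynomial ι ℂ) := ⟨RingHom.ker (eval r₀), inferInstance⟩
  let T : Set (PrimeSpectrum (MvPolynomial ι ℂ)) :=
    .comap (algebraMap (MvPolynomial κ ℂ) (MvPolynomial ι ℂ)) ⁻¹'
      {q.comap (algebraMap (MvPolynomial κ ℂ) (MvPolynomial ι ℂ))}
  have hcomap : ∀ r : ι → ℂ, (RingHom.ker (eval r)).comap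
      (algebraMap (MvPolynomial κ ℂ) (MvPolynomial ι ℂ)) =
      RingHom.ker (eval fun j => eval r (F j)) := by
    intro r
    ext p
    rw [Ideal.mem_comap, RingHom.mem_ker, RingHom.mem_ker, hA, eval_aeval]
  have hT : ∀ P ∈ T, ∃ r : ι → ℂ, (∀ j, eval r (F j) = eval r₀ (F j)) ∧
      P.asIdeal = RingHom.ker (eval r) := by
    intro P hP
    have hP1 : P.asIdeal.comap (algebraMap (MvPolynomial κ ℂ) (MvPolynomial ι ℂ)) =
        RingHom.ker (eval fun j => eval r₀ (F j)) := by
      rw [← hcomap]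
      exact congrArg PrimeSpectrum.asIdeal hP
    have hfib : ∀ r : ι → ℂ, P.asIdeal ≤ RingHom.ker (eval r) →
        ∀ j, eval r (F j) = eval r₀ (F j) := by
      intro r hr j
      have h1 := Ideal.comap_mono (f := algebraMap (MvPolynomial κ ℂ) (MvPolynomial ι ℂ)) hr
      rw [hP1, hcomap] at h1
      have h2 : (X j - C (eval r₀ (F j)) : MvPolynomial κ ℂ) ∈
          RingHom.ker (eval fun j => eval r₀ (F j)) := by
        simp [RingHom.mem_ker]
      have h3 := h1 h2
      rw [RingHom.mem_ker] at h3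
      simpa [sub_eq_zero] using h3
    classical
    let s : Finset (ι → ℂ) := hfin.toFinset.filter fun r => P.asIdeal ≤ RingHom.ker (eval r)
    have hj : P.asIdeal.jacobson = P.asIdeal := by
      rw [← Ideal.radical_eq_jacobson]
      exact P.2.isRadical.radical
    have hle : s.inf (fun r => RingHom.ker (eval r)) ≤ P.asIdeal := by
      conv_rhs => rw [← hj]
      refine le_sInf ?_
      rintro M ⟨hM1, hM2⟩
      obtain ⟨r, rfl⟩ := exists_eq_ker_eval M hM2
      refine Finset.inf_le (f := fun r => RingHom.ker (eval r)) ?_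
      simp only [s, Finset.mem_filter, Set.Finite.mem_toFinset, Set.mem_ofPred_eq]
      exact ⟨hfib r hM1, hM1⟩
    obtain ⟨r, hr, hr2⟩ := (Ideal.IsPrime.inf_le' P.2).1 hle
    simp only [s, Finset.mem_filter, Set.Finite.mem_toFinset, Set.mem_ofPred_eq] at hr
    exact ⟨r, hr.1, le_antisymm hr.2 hr2⟩
  have hTfin : T.Finite := by
    refine (hfin.image fun r => (⟨RingHom.ker (eval r), inferInstance⟩ :
      PrimeSpectrum (MvPolynomial ι ℂ))).subset ?_
    intro P hP
    obtain ⟨r, hr1, hr2⟩ := hT P hP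
    exact ⟨r, hr1, PrimeSpectrum.ext hr2.symm⟩
  have : Finite T := hTfin
  have hT1 : T1Space T := ⟨fun x => by
    obtain ⟨r, hr1, hr2⟩ := hT x.1 x.2
    have h1 : IsClosed ({x.1} : Set (PrimeSpectrum (MvPolynomial ι ℂ))) := by
      rw [PrimeSpectrum.isClosed_singleton_iff_isMaximal, hr2]
      infer_instance
    have h2 : ({x} : Set T) = Subtype.val ⁻¹' {x.1} := by
      ext y
      simp [Subtype.ext_iff]
    rw [h2]
    exact h1.preimage continuous_subtype_val⟩
  have hopen : IsOpen (X := T) {⟨q, rfl⟩} := isOpen_discrete _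
  exact Algebra.QuasiFiniteAt.of_isOpen_singleton_fiber q hopen

end Pool.Agent.KS6_87.Fib
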