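import Pool.Agent.KS6_87.Fib.Near
import Pool.Agent.KS6_87.Fib.QF

set_option autoImplicit false

namespace Pool.Agent.KS6_87.Fib

open MvPolynomial Filter Topology

variable {ι κ : Type} [Fintype ι] [Fintype κ]

/-- a polynomial map between affine spaces of the same dimension is open at every point which is
isolated in a finite fibre -/
theorem open_at (F : κ → MvPolynomial ι ℂ) (hcard : Fintype.card κ = Fintype.card ι)
    (r₀ : ι → ℂ) (hfin : {r : ι → ℂ | ∀ j, eval r (F j) = eval r₀ (F j)}.Finite)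
    (W : Set (ι → ℂ)) (hW : W ∈ 𝓝 r₀) :
    {y : κ → ℂ | ∃ r ∈ W, ∀ j, eval r (F j) = y j} ∈ 𝓝 fun j => eval r₀ (F j) := by
  let _ : Algebra (MvPolynomial κ ℂ) (MvPolynomial ι ℂ) := (aeval F).toRingHom.toAlgebra
  have hA : ∀ p, algebraMap (MvPolynomial κ ℂ) (MvPolynomial ι ℂ) p = aeval F p := fun _ => rfl
  obtain ⟨hft, hqf⟩ := quasiFiniteAt F hA r₀ hfin
  have hz : Algebra.ZariskisMainProperty (MvPolynomial κ ℂ) (RingHom.ker (eval r₀)) :=
    Algebra.ZariskisMainProperty.of_finiteType _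
  rw [Algebra.zariskisMainProperty_iff] at hz
  obtain ⟨g, hg0, hgint, hm⟩ := hz
  have hg0' : eval r₀ g ≠ 0 := fun h => hg0 (RingHom.mem_ker.2 h)
  have hgne : g ≠ 0 := by
    rintro rfl
    exact hg0' (map_zero _)
  choose m hmint using hm
  -- injectivity
  have halg : ∀ x : MvPolynomial ι ℂ, IsIntegral (MvPolynomial κ ℂ) x →
      IsAlgebraic (Algebra.adjoin ℂ (Set.range F)) x := by
    intro x hx
    have hmem : ∀ p, algebraMap (MvPolynomial κ ℂ) (MvPolynomial ι ℂ) p ∈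
        Algebra.adjoin ℂ (Set.range F) := by
      intro p
      rw [Algebra.adjoin_range_eq_range_aeval]
      exact ⟨p, rfl⟩
    have h1 : IsIntegral (Algebra.adjoin ℂ (Set.range F)) (RingHom.id _ x) :=
      IsIntegral.map_of_comp_eq ((algebraMap (MvPolynomial κ ℂ) (MvPolynomial ι ℂ)).codRestrict
        (Algebra.adjoin ℂ (Set.range F)).toSubring hmem) (RingHom.id _) (RingHom.ext fun p => rfl) hx
    exact h1.isAlgebraic
  have hgalg : IsAlgebraic (Algebra.adjoin ℂ (Set.range F)) g := halg g hgint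
  have hallalg : ∀ x : MvPolynomial ι ℂ, IsAlgebraic (Algebra.adjoin ℂ (Set.range F)) x := by
    intro x
    exact IsAlgebraic.of_mul (mem_nonZeroDivisors_of_ne_zero (pow_ne_zero (m x) hgne))
      (hgalg.pow _) (halg _ (hmint x))
  have : Algebra.IsAlgebraic (Algebra.adjoin ℂ (Set.range F)) (MvPolynomial ι ℂ) := ⟨hallalg⟩
  have htr : IsTranscendenceBasis ℂ F :=
    Algebra.IsAlgebraic.isTranscendenceBasis_of_lift_le_trdeg_of_finite ℂ F (by
      rw [MvPolynomial.trdeg_of_isDomain]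
      simp [hcard])
  have hinj : Function.Injective (algebraMap (MvPolynomial κ ℂ) (MvPolynomial ι ℂ)) :=
    htr.1
  -- the integral subalgebra
  let G : Set (MvPolynomial ι ℂ) := insert g (Set.range fun i : ι => g ^ m (X i) * X i)
  have hGfin : G.Finite := (Set.finite_range _).insert _
  have hGint : ∀ x ∈ G, IsIntegral (MvPolynomial κ ℂ) x := by
    rintro x (rfl | ⟨i, rfl⟩)
    · exact hgint
    · exact hmint (X i)
  let S := Algebra.adjoin (MvPolynomial κ ℂ) G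
  have hSint : Algebra.IsIntegral (MvPolynomial κ ℂ) S := Algebra.IsIntegral.adjoin hGint
  have hSinj : Function.Injective (algebraMap (MvPolynomial κ ℂ) S) := by
    intro a b hab
    exact hinj (congrArg Subtype.val hab)
  let G' : Set S := Subtype.val ⁻¹' G
  have hG'fin : G'.Finite := hGfin.preimage Subtype.val_injective.injOn
  have hG'gen : Algebra.adjoin (MvPolynomial κ ℂ) G' = ⊤ := Algebra.adjoin_adjoin_coe_preimage
  have hgS : g ∈ S := Algebra.subset_adjoin (Set.mem_insert _ _)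
  have hXS : ∀ i, g ^ m (X i) * X i ∈ S := fun i =>
    Algebra.subset_adjoin (Set.mem_insert_of_mem _ ⟨i, rfl⟩)
  let ψ₀ : S →+* ℂ := (eval r₀).comp S.subtype
  let φ : (κ → ℂ) → MvPolynomial κ ℂ →+* ℂ := fun y => eval y
  have hφs : ∀ y, Function.Surjective (φ y) := fun y c => ⟨C c, eval_C c⟩
  have hφc : ∀ a, Continuous fun y => φ y a := fun a => MvPolynomial.continuous_eval a
  have hψ₀ : ψ₀.comp (algebraMap (MvPolynomial κ ℂ) S) = φ fun j => eval r₀ (F j) := by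
    refine RingHom.ext fun p => ?_
    show eval r₀ (algebraMap (MvPolynomial κ ℂ) (MvPolynomial ι ℂ) p) =
      eval (fun j => eval r₀ (F j)) p
    rw [hA, eval_aeval]
  let t : Option ι → S := fun k => k.elim ⟨g, hgS⟩ fun i => ⟨_, hXS i⟩
  let ρ : (Option ι → ℂ) → (ι → ℂ) := fun w i => w (some i) / w none ^ m (X i)
  let w₀ : Option ι → ℂ := fun k => ψ₀ (t k)
  have hw₀n : w₀ none = eval r₀ g := rfl
  have hw₀s : ∀ i, w₀ (some i) = eval r₀ g ^ m (X i) * r₀ i := by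
    intro i
    show eval r₀ (g ^ m (X i) * X i) = _
    rw [map_mul, map_pow, eval_X]
  have hρ₀ : ρ w₀ = r₀ := by
    funext i
    show w₀ (some i) / w₀ none ^ m (X i) = r₀ i
    rw [hw₀n, hw₀s]
    exact mul_div_cancel_left₀ _ (pow_ne_zero _ hg0')
  have hρc : ContinuousAt ρ w₀ := by
    rw [continuousAt_pi]
    intro i
    refine ContinuousAt.div (continuous_apply _).continuousAt
      ((continuous_apply _).continuousAt.pow _) ?_
    rw [hw₀n]
    exact pow_ne_zero _ hg0'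
  have hN1 : ρ ⁻¹' W ∈ 𝓝 w₀ := hρc (by rw [hρ₀]; exact hW)
  have hN2 : {w : Option ι → ℂ | w none ≠ 0} ∈ 𝓝 w₀ :=
    (continuous_apply (A := fun _ : Option ι => ℂ) none).continuousAt.eventually_ne
      (by rw [hw₀n]; exact hg0')
  have key := exists_near hSinj G' hG'fin hG'gen φ hφs hφc (fun j => eval r₀ (F j)) ψ₀ hψ₀ t
    (ρ ⁻¹' W ∩ {w | w none ≠ 0}) (inter_mem hN1 hN2)
  filter_upwards [key] with y hy
  obtain ⟨ψ, hψ, hψW, hψ0⟩ := hy
  set r : ι → ℂ := ρ fun k => ψ (t k) with hr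
  have hc0 : ψ ⟨g, hgS⟩ ≠ 0 := hψ0
  refine ⟨r, hψW, ?_⟩
  have hψA : ∀ p, ψ (algebraMap (MvPolynomial κ ℂ) S p) = eval y p := fun p =>
    congrArg (fun f : MvPolynomial κ ℂ →+* ℂ => f p) hψ
  have hind : ∀ b : MvPolynomial ι ℂ, ∃ K : ℕ, ∃ hK : g ^ K * b ∈ S,
      ψ ⟨g ^ K * b, hK⟩ = ψ ⟨g, hgS⟩ ^ K * eval r b := by
    intro b
    induction b using MvPolynomial.induction_on with
    | C c =>
      have h1 : (C c : MvPolynomial ι ℂ) = algebraMap (MvPolynomial κ ℂ) (MvPolynomial ι ℂ) (C c) := by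
        rw [hA]; simp
      have h2 : g ^ 0 * (C c : MvPolynomial ι ℂ) ∈ S := by
        rw [pow_zero, one_mul, h1]
        exact S.algebraMap_mem _
      refine ⟨0, h2, ?_⟩
      have h3 : (⟨g ^ 0 * (C c : MvPolynomial ι ℂ), h2⟩ : S) =
          algebraMap (MvPolynomial κ ℂ) S (C c) := by
        apply Subtype.ext
        show g ^ 0 * (C c : MvPolynomial ι ℂ) = algebraMap (MvPolynomial κ ℂ) (MvPolynomial ι ℂ) (C c)
        rw [pow_zero, one_mul, h1]
      rw [h3, hψA, pow_zero, one_mul, eval_C, eval_C]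
    | add p q hp hq =>
      obtain ⟨K1, h1, h2⟩ := hp
      obtain ⟨K2, h3, h4⟩ := hq
      have h5 : g ^ (K1 + K2) * (p + q) ∈ S := by
        have : g ^ (K1 + K2) * (p + q) = g ^ K2 * (g ^ K1 * p) + g ^ K1 * (g ^ K2 * q) := by ring
        rw [this]
        exact S.add_mem (S.mul_mem (S.pow_mem hgS _) h1) (S.mul_mem (S.pow_mem hgS _) h3)
      refine ⟨K1 + K2, h5, ?_⟩
      have h6 : (⟨g ^ (K1 + K2) * (p + q), h5⟩ : S) =
          ⟨g, hgS⟩ ^ K2 * ⟨g ^ K1 * p, h1⟩ + ⟨g, hgS⟩ ^ K1 * ⟨g ^ K2 * q, h3⟩ := by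
        apply Subtype.ext
        show g ^ (K1 + K2) * (p + q) = g ^ K2 * (g ^ K1 * p) + g ^ K1 * (g ^ K2 * q)
        ring
      rw [h6, map_add, map_mul, map_mul, map_pow, map_pow, h2, h4, map_add]
      ring
    | mul_X p i hp =>
      obtain ⟨K1, h1, h2⟩ := hp
      have h5 : g ^ (K1 + m (X i)) * (p * X i) ∈ S := by
        have : g ^ (K1 + m (X i)) * (p * X i) = (g ^ K1 * p) * (g ^ m (X i) * X i) := by ring
        rw [this]
        exact S.mul_mem h1 (hXS i)
      refine ⟨K1 + m (X i), h5, ?_⟩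
      have h6 : (⟨g ^ (K1 + m (X i)) * (p * X i), h5⟩ : S) =
          ⟨g ^ K1 * p, h1⟩ * ⟨g ^ m (X i) * X i, hXS i⟩ := by
        apply Subtype.ext
        show g ^ (K1 + m (X i)) * (p * X i) = (g ^ K1 * p) * (g ^ m (X i) * X i)
        ring
      have h7 : ψ ⟨g ^ m (X i) * X i, hXS i⟩ = ψ ⟨g, hgS⟩ ^ m (X i) * r i := by
        show _ = ψ ⟨g, hgS⟩ ^ m (X i) * (ψ ⟨g ^ m (X i) * X i, hXS i⟩ / ψ ⟨g, hgS⟩ ^ m (X i))
        rw [mul_div_cancel₀]
        exact pow_ne_zero _ hc0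
      rw [h6, map_mul, h2, h7, map_mul, eval_X, pow_add]
      ring
  intro j
  obtain ⟨K, hK, hK2⟩ := hind (F j)
  have h1 : F j = algebraMap (MvPolynomial κ ℂ) (MvPolynomial ι ℂ) (X j) := by
    rw [hA, aeval_X]
  have h3 : (⟨g ^ K * F j, hK⟩ : S) = ⟨g, hgS⟩ ^ K * algebraMap (MvPolynomial κ ℂ) S (X j) := by
    apply Subtype.ext
    show g ^ K * F j = g ^ K * algebraMap (MvPolynomial κ ℂ) (MvPolynomial ι ℂ) (X j)
    rw [← h1]
  rw [h3, map_mul, map_pow, hψA, eval_X] at hK2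
  exact (mul_left_cancel₀ (pow_ne_zero _ hc0) hK2).symm

end Pool.Agent.KS6_87.Fib
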