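import Pool.Agent.KS6_87.Fib.Open
import Pool.Agent.KS6_87.Fib.Auto
import Pool.Agent.KS6_87.Fib.Dense

set_option autoImplicit false

namespace Pool.Agent.KS6_87.Fib

open Filter Topology

variable {V : Type}

/-- squared distance -/
def sqd (s : V × Fin 2 → ℂ) (u v : V) : ℂ := ∑ k : Fin 2, (s (u, k) - s (v, k)) ^ 2

/-- first isotropic coordinate -/
def ia (s : V × Fin 2 → ℂ) (u : V) : ℂ := s (u, 0) + Complex.I * s (u, 1)

/-- second isotropic coordinate -/
def ib (s : V × Fin 2 → ℂ) (u : V) : ℂ := s (u, 0) - Complex.I * s (u, 1)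

theorem sqd_eq (s : V × Fin 2 → ℂ) (u v : V) :
    sqd s u v = (ia s u - ia s v) * (ib s u - ib s v) := by
  unfold sqd ia ib
  rw [Fin.sum_univ_two]
  linear_combination ((s (u, 1) - s (v, 1)) ^ 2) * Complex.I_sq

theorem ext_iso (s t : V × Fin 2 → ℂ) (ha : ∀ w, ia s w = ia t w) (hb : ∀ w, ib s w = ib t w) :
    s = t := by
  have h0 : ∀ w, s (w, 0) = t (w, 0) := by
    intro w
    have h1 := ha w
    have h2 := hb w
    unfold ia at h1
    unfold ib at h2
    linear_combination (h1 + h2) / 2
  have h1 : ∀ w, s (w, 1) = t (w, 1) := by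
    intro w
    have h1 := ha w
    have h2 := h0 w
    unfold ia at h1
    have h3 : Complex.I * s (w, 1) = Complex.I * t (w, 1) := by linear_combination h1 - h2
    exact mul_left_cancel₀ Complex.I_ne_zero h3
  funext x
  obtain ⟨w, k⟩ := x
  fin_cases k
  · exact h0 w
  · exact h1 w

theorem finite_quad (α β d c : ℂ) (hα : α ≠ 0) (hβ : β ≠ 0) :
    {z : ℂ × ℂ | z.1 * z.2 = d ∧ β * z.1 + α * z.2 = c}.Finite := by
  let P : Polynomial ℂ := Polynomial.C β * Polynomial.X ^ 2 - Polynomial.C c * Polynomial.X +
    Polynomial.C (α * d)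
  have hP : P ≠ 0 := by
    intro h
    have h1 : P.coeff 2 = β := by
      simp [P]
    rw [h] at h1
    exact hβ (by simpa using h1.symm)
  refine ((Polynomial.finite_setOfPred_isRoot hP).image fun x => (x, (c - β * x) / α)).subset ?_
  rintro ⟨x, y⟩ ⟨h1, h2⟩
  simp only at h1 h2
  have hy : y = (c - β * x) / α := by
    rw [eq_div_iff hα]
    linear_combination h2
  refine ⟨x, ?_, by rw [hy]⟩
  show P.IsRoot x
  simp only [Polynomial.IsRoot.def, P, Polynomial.eval_add, Polynomial.eval_sub,
    Polynomial.eval_mul, Polynomial.eval_C, Polynomial.eval_pow, Polynomial.eval_X]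
  linear_combination x * h2 - α * h1

/-- realisations with given squared distances and a partially fixed frame -/
theorem finite_frame [Finite V] (δ : V → V → ℂ) (w₁ w₂ : V) (hδ : δ w₁ w₂ ≠ 0) (u v : V)
    (A B α : ℂ) (hα : α ≠ 0) :
    {s : V × Fin 2 → ℂ | sqd s = δ ∧ ia s u = A ∧ ib s u = B ∧ ia s v = A + α}.Finite := by
  classical
  by_cases hβ : δ u v = 0
  · -- at most one
    apply Set.Subsingleton.finite
    have key : ∀ s : V × Fin 2 → ℂ, sqd s = δ → ia s u = A → ib s u = B → ia s v = A + α →
        (∀ w, ib s w = B + (δ u w - δ v w) / α) ∧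
        (∀ w, (ia s w - A) * (ib s w - B) = δ u w) := by
      intro s h1 h2 h3 h4
      have h5 : ∀ w, (ia s w - A) * (ib s w - B) = δ u w := by
        intro w
        rw [← h1, sqd_eq, h2, h3]
        ring
      have h6 : ib s v = B := by
        have h7 := h5 v
        rw [hβ, h4] at h7
        have h8 : α * (ib s v - B) = 0 := by linear_combination h7
        rcases mul_eq_zero.1 h8 with h9 | h9
        · exact absurd h9 hα
        · linear_combination h9
      refine ⟨?_, h5⟩
      intro w
      have h7 : (ia s v - ia s w) * (ib s v - ib s w) = δ v w := by rw [← h1, sqd_eq]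
      rw [h4, h6] at h7
      have h8 : α * (ib s w - B) = δ u w - δ v w := by
        linear_combination h5 w - h7
      have h9 : ib s w - B = (δ u w - δ v w) / α := by
        rw [eq_div_iff hα]; linear_combination h8
      linear_combination h9
    rintro s ⟨h1, h2, h3, h4⟩ t ⟨h1', h2', h3', h4'⟩
    obtain ⟨k1, k2⟩ := key s h1 h2 h3 h4
    obtain ⟨k1', k2'⟩ := key t h1' h2' h3' h4'
    have hb : ∀ w, ib s w = ib t w := fun w => by rw [k1, k1']
    have hex : ∃ w₀, ib s w₀ - B ≠ 0 := by
      by_contra hcon
      push Not at hcon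
      apply hδ
      rw [← h1, sqd_eq]
      have e1 := hcon w₁
      have e2 := hcon w₂
      linear_combination (ia s w₁ - ia s w₂) * (e1 - e2)
    obtain ⟨w₀, hw₀⟩ := hex
    have ha0 : ia s w₀ = ia t w₀ := by
      have e1 := k2 w₀
      have e2 := k2' w₀
      rw [← hb w₀] at e2
      have e3 : (ib s w₀ - B) * (ia s w₀ - ia t w₀) = 0 := by linear_combination e1 - e2
      rcases mul_eq_zero.1 e3 with h | h
      · exact absurd h hw₀
      · linear_combination h
    refine ext_iso s t (fun w => ?_) hb
    by_cases hw : ib s w - B = 0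
    · have e1 : (ia s w - ia s w₀) * (ib s w - ib s w₀) = δ w w₀ := by rw [← h1, sqd_eq]
      have e2 : (ia t w - ia t w₀) * (ib t w - ib t w₀) = δ w w₀ := by rw [← h1', sqd_eq]
      rw [← hb w, ← hb w₀, ← ha0] at e2
      have e3 : (ib s w₀ - B) * (ia s w - ia t w) = 0 := by
        linear_combination (-1 : ℂ) * (e1 - e2) + (ia s w - ia t w) * hw
      rcases mul_eq_zero.1 e3 with h | h
      · exact absurd h hw₀
      · linear_combination h
    · have e1 := k2 w
      have e2 := k2' w
      rw [← hb w] at e2
      have e3 : (ib s w - B) * (ia s w - ia t w) = 0 := by linear_combination e1 - e2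
      rcases mul_eq_zero.1 e3 with h | h
      · exact absurd h hw
      · linear_combination h
  · -- generic case
    set β : ℂ := δ u v / α with hβdef
    have hβ0 : β ≠ 0 := div_ne_zero hβ hα
    have hfin : (Set.pi Set.univ fun w : V => {z : ℂ × ℂ | z.1 * z.2 = δ u w ∧
        β * z.1 + α * z.2 = α * β + δ u w - δ v w}).Finite :=
      Set.Finite.pi fun w => finite_quad α β _ _ hα hβ0
    refine Set.Finite.of_finite_image (f := fun s : V × Fin 2 → ℂ => fun w : V =>
      ((ia s w - A, ib s w - B) : ℂ × ℂ)) (hfin.subset ?_) ?_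
    · rintro _ ⟨s, ⟨h1, h2, h3, h4⟩, rfl⟩ w -
      have h5 : ∀ w, (ia s w - A) * (ib s w - B) = δ u w := by
        intro w
        rw [← h1, sqd_eq, h2, h3]
        ring
      have h6 : ib s v = B + β := by
        have h7 := h5 v
        rw [h4] at h7
        have h8 : ib s v - B = β := by
          rw [hβdef, eq_div_iff hα]
          linear_combination h7
        linear_combination h8
      have h7 : (ia s v - ia s w) * (ib s v - ib s w) = δ v w := by rw [← h1, sqd_eq]
      rw [h4, h6] at h7
      refine ⟨h5 w, ?_⟩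
      show β * (ia s w - A) + α * (ib s w - B) = α * β + δ u w - δ v w
      linear_combination h5 w - h7
    · intro s _ t _ h
      refine ext_iso s t (fun w => ?_) fun w => ?_
      · have := congrArg Prod.fst (congrFun h w)
        simp only at this
        linear_combination this
      · have := congrArg Prod.snd (congrFun h w)
        simp only at this
        linear_combination this

/-- the squared distance functions of the realisations equivalent to a given one -/
def DV (G : SimpleGraph V) (q : V × Fin 2 → ℂ) : Set (V → V → ℂ) :=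
  {δ | ∃ s : V × Fin 2 → ℂ, (∀ u v, G.Adj u v → sqd s u v = sqd q u v) ∧ sqd s = δ}

theorem sqd_comm (s : V × Fin 2 → ℂ) (u v : V) : sqd s u v = sqd s v u := by
  unfold sqd
  exact Finset.sum_congr rfl fun k _ => by ring

theorem sqd_self (s : V × Fin 2 → ℂ) (u : V) : sqd s u u = 0 := by
  unfold sqd
  simp

/-- if two vertices are not adjacent and the zero function is attained then there are infinitely
many classes -/
theorem infinite_of_zero (G : SimpleGraph V) (q : V × Fin 2 → ℂ) (x y : V) (hxy : x ≠ y)
    (hadj : ¬ G.Adj x y) (h0 : (0 : V → V → ℂ) ∈ DV G q) : (DV G q).Infinite := by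
  classical
  obtain ⟨s, hs1, hs2⟩ := h0
  have hq0 : ∀ u v, G.Adj u v → sqd q u v = 0 := by
    intro u v h
    rw [← hs1 u v h, hs2]
    rfl
  -- the family
  let R : ℂ → V × Fin 2 → ℂ := fun t z =>
    if z.1 = x then (if z.2 = 0 then 1 / 2 else - Complex.I / 2)
    else if z.1 = y then (if z.2 = 0 then t / 2 else Complex.I * t / 2) else 0
  have hax : ∀ t, ia (R t) x = 1 := by
    intro t
    simp only [ia, R, if_true]
    norm_num
    linear_combination (-1/2 : ℂ) * Complex.I_sq
  have hbx : ∀ t, ib (R t) x = 0 := by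
    intro t
    simp only [ib, R, if_true]
    norm_num
    linear_combination (1/2 : ℂ) * Complex.I_sq
  have hay : ∀ t, ia (R t) y = 0 := by
    intro t
    simp only [ia, R, if_true, if_neg hxy.symm]
    norm_num
    linear_combination (t/2 : ℂ) * Complex.I_sq
  have hby : ∀ t, ib (R t) y = t := by
    intro t
    simp only [ib, R, if_true, if_neg hxy.symm]
    norm_num
    linear_combination (-t/2 : ℂ) * Complex.I_sq
  have haz : ∀ t z, z ≠ x → z ≠ y → ia (R t) z = 0 := by
    intro t z h1 h2
    simp [ia, R, h1, h2]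
  have hbz : ∀ t z, z ≠ x → z ≠ y → ib (R t) z = 0 := by
    intro t z h1 h2
    simp [ib, R, h1, h2]
  have ha : ∀ t z, z ≠ x → ia (R t) z = 0 := by
    intro t z h1
    by_cases h2 : z = y
    · rw [h2]; exact hay t
    · exact haz t z h1 h2
  have hb : ∀ t z, z ≠ y → ib (R t) z = 0 := by
    intro t z h1
    by_cases h2 : z = x
    · rw [h2]; exact hbx t
    · exact hbz t z h2 h1
  have hedge : ∀ t u v, G.Adj u v → sqd (R t) u v = 0 := by
    intro t u v huv
    rw [sqd_eq]
    by_cases h1 : u = x
    · have h2 : v ≠ y := by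
        rintro rfl
        exact hadj (h1 ▸ huv)
      have h3 : u ≠ y := by rw [h1]; exact hxy
      rw [hb t u h3, hb t v h2]
      ring
    · by_cases h2 : v = x
      · have h3 : u ≠ y := by
          rintro rfl
          exact hadj (h2 ▸ huv.symm)
        have h4 : v ≠ y := by rw [h2]; exact hxy
        rw [hb t u h3, hb t v h4]
        ring
      · rw [ha t u h1, ha t v h2]
        ring
  have hmem : ∀ t, sqd (R t) ∈ DV G q := by
    intro t
    exact ⟨R t, fun u v huv => by rw [hedge t u v huv, hq0 u v huv], rfl⟩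
  have hinj : Function.Injective fun t => sqd (R t) := by
    intro t t' h
    have h1 := congrFun (congrFun h x) y
    simp only at h1
    rw [sqd_eq, sqd_eq, hax, hax, hay, hay, hbx, hbx, hby, hby] at h1
    linear_combination -h1
  exact Set.infinite_of_injective_forall_mem hinj hmem

end Pool.Agent.KS6_87.Fib
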